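import Mathlib
set_option linter.unusedVariables false
set_option linter.unusedSectionVars false
open Set Filter Topology

namespace Pool.Agent.Y278.BF

variable {F : Type*} [NormedAddCommGroup F] [NormedSpace ℝ F]

/-- Taylor expansion along a line, vector valued -/
theorem taylor_lineF : ∀ (m : ℕ), 1 ≤ m → ∀ (φ : ℕ → ℝ → F) (δ : ℝ), 0 < δ →
    (∀ j < m, ∀ t, |t| < δ → HasDerivAt (φ j) (φ (j + 1) t) t) →
    ∃ C : ℝ, 0 ≤ C ∧ ∃ δ' > 0, ∀ t, |t| ≤ δ' →
      ‖φ 0 t - ∑ j ∈ Finset.range m, ((1 / (j.factorial : ℝ)) * t ^ j) • φ j 0‖ ≤ C * |t| ^ m := by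
  intro m hm
  induction m, hm using Nat.le_induction with
  | base =>
    intro φ δ hδ H
    have h1 := (H 0 (by norm_num) 0 (by simpa using hδ)).isBigO_sub
    rw [Asymptotics.isBigO_iff] at h1
    obtain ⟨C, hC⟩ := h1
    rw [Metric.eventually_nhds_iff] at hC
    obtain ⟨δ', hδ', h⟩ := hC
    refine ⟨max C 0, le_max_right _ _, δ' / 2, by positivity, fun t ht => ?_⟩
    have h2 := h (y := t) (by rw [Real.dist_eq, sub_zero]; linarith)
    simp only [Finset.sum_range_one, Nat.factorial_zero, Nat.cast_one, div_one, pow_zero, mul_one, one_smul, pow_one]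
    rw [Real.norm_eq_abs, sub_zero] at h2
    refine le_trans h2 ?_
    have := abs_nonneg t
    gcongr
    exact le_max_left _ _
  | succ m hm ih =>
    intro φ δ hδ H
    obtain ⟨C, hC0, δ', hδ', hC⟩ := ih (fun j => φ (j + 1)) δ hδ (fun j hj t ht => H (j + 1) (by omega) t ht)
    refine ⟨C, hC0, min δ' (δ / 2), lt_min hδ' (by positivity), fun s hs => ?_⟩
    have hs1 : |s| ≤ δ' := le_trans hs (min_le_left _ _)
    have hs2 : |s| ≤ δ / 2 := le_trans hs (min_le_right _ _)
    set Rm : ℝ → F := fun t => φ 0 t - ∑ j ∈ Finset.range (m + 1), ((1 / (j.factorial : ℝ)) * t ^ j) • φ j 0 with hRm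
    have hR0 : Rm 0 = 0 := by
      simp only [hRm]
      rw [Finset.sum_range_succ']
      simp
    have hder : ∀ t, |t| < δ → HasDerivAt Rm (φ 1 t - ∑ j ∈ Finset.range m, ((1 / (j.factorial : ℝ)) * t ^ j) • φ (j + 1) 0) t := by
      intro t ht
      have h1 := H 0 (by omega) t ht
      have h2 : HasDerivAt (fun t : ℝ => ∑ j ∈ Finset.range (m + 1), ((1 / (j.factorial : ℝ)) * t ^ j) • φ j 0)
          (∑ j ∈ Finset.range (m + 1), ((1 / (j.factorial : ℝ)) * ((j:ℝ) * t ^ (j - 1))) • φ j 0) t := by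
        refine HasDerivAt.fun_sum fun j _ => ?_
        exact ((hasDerivAt_pow j t).const_mul _).smul_const _
      have h3 : ∑ j ∈ Finset.range (m + 1), ((1 / (j.factorial : ℝ)) * ((j:ℝ) * t ^ (j - 1))) • φ j 0 =
          ∑ j ∈ Finset.range m, ((1 / (j.factorial : ℝ)) * t ^ j) • φ (j + 1) 0 := by
        rw [Finset.sum_range_succ']
        simp only [Nat.cast_zero, zero_mul, mul_zero, zero_smul, add_zero, Nat.add_sub_cancel]
        refine Finset.sum_congr rfl fun j _ => ?_
        congr 1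
        rw [Nat.factorial_succ]
        have : ((j.factorial : ℕ) : ℝ) ≠ 0 := by exact_mod_cast j.factorial_ne_zero
        push_cast
        field_simp
      rw [h3] at h2
      exact h1.sub h2
    have hmv := Convex.norm_image_sub_le_of_norm_hasDerivWithin_le (f := Rm)
      (f' := fun t => φ 1 t - ∑ j ∈ Finset.range m, ((1 / (j.factorial : ℝ)) * t ^ j) • φ (j + 1) 0)
      (s := Icc (-|s|) |s|) (x := 0) (y := s) (C := C * |s| ^ m)
      (fun t ht => (hder t (by
        have := abs_le.2 ht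
        linarith)).hasDerivWithinAt)
      (fun t ht => by
        have h1 := abs_le.2 ht
        refine le_trans (hC t (le_trans h1 hs1)) ?_
        gcongr)
      (convex_Icc _ _) (by simp) (abs_le.1 le_rfl)
    rw [hR0, sub_zero, sub_zero, Real.norm_eq_abs] at hmv
    refine le_trans hmv (le_of_eq ?_)
    rw [pow_succ]; ring

variable {X : Type*} [NormedAddCommGroup X] [NormedSpace ℝ X]

/-- Taylor expansion along lines of a function of class `C^n`, at the origin -/
theorem taylor_contDiff {n m : ℕ} (hm : 1 ≤ m) (hmn : m ≤ n) {G : X → ℝ} (hG : ContDiff ℝ n G) (h : X) :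
    ∃ C : ℝ, 0 ≤ C ∧ ∃ δ' > 0, ∀ t : ℝ, |t| ≤ δ' →
      |G (t • h) - ∑ j ∈ Finset.range m, (1 / (j.factorial : ℝ)) * iteratedFDeriv ℝ j G 0 (fun _ => t • h)|
        ≤ C * |t| ^ m := by
  have hder : ∀ j < m, ∀ t : ℝ, |t| < 1 → HasDerivAt (fun t : ℝ => iteratedFDeriv ℝ j G (t • h) (fun _ => h))
      (iteratedFDeriv ℝ (j + 1) G (t • h) (fun _ => h)) t := by
    intro j hj t _
    have hd : DifferentiableAt ℝ (iteratedFDeriv ℝ j G) (t • h) :=
      (hG.differentiable_iteratedFDeriv (by exact_mod_cast (lt_of_lt_of_le hj hmn))).differentiableAt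
    have h1 : HasDerivAt (fun t : ℝ => t • h) h t := by
      simpa using (hasDerivAt_id t).smul_const h
    have h2 := hd.hasFDerivAt.comp_hasDerivAt t h1
    have h3 := (ContinuousMultilinearMap.apply ℝ (fun _ : Fin j => X) ℝ (fun _ => h)).hasFDerivAt.comp_hasDerivAt t h2
    rw [iteratedFDeriv_succ_apply_left]
    exact h3
  obtain ⟨C, hC0, δ', hδ', hC⟩ := taylor_lineF m hm (fun j t => iteratedFDeriv ℝ j G (t • h) (fun _ => h)) 1 one_pos hder
  refine ⟨C, hC0, δ', hδ', fun t ht => ?_⟩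
  have h1 := hC t ht
  simp only [zero_smul, iteratedFDeriv_zero_apply] at h1
  have h2 : ∑ j ∈ Finset.range m, (1 / (j.factorial : ℝ)) * iteratedFDeriv ℝ j G 0 (fun _ => t • h) =
      ∑ j ∈ Finset.range m, ((1 / (j.factorial : ℝ)) * t ^ j) • iteratedFDeriv ℝ j G 0 (fun _ => h) := by
    refine Finset.sum_congr rfl fun j _ => ?_
    have h3 := (iteratedFDeriv ℝ j G 0).map_smul_univ (fun _ => t) (fun _ => h)
    simp only [Finset.prod_const, Finset.card_univ, Fintype.card_fin, smul_eq_mul] at h3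
    rw [h3, smul_eq_mul]; ring
  rw [h2]
  exact h1

end Pool.Agent.Y278.BF
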