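import Pool.Agent.Y278.BF.P1
set_option linter.unusedVariables false
set_option linter.unusedSectionVars false
open Set Filter Topology

namespace Pool.Agent.Y278.BF

variable {F : Type*} [NormedAddCommGroup F] [NormedSpace ℝ F]
variable {X : Type*} [NormedAddCommGroup X] [NormedSpace ℝ X]

/-- the Taylor polynomial with coefficients `A` -/
noncomputable def TP (m : ℕ) (A : (j : ℕ) → ContinuousMultilinearMap ℝ (fun _ : Fin j => X) F) (u : X) : F :=
  ∑ j ∈ Finset.range m, (1 / (j.factorial : ℝ)) • A j (fun _ => u)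

theorem TP_contDiff (m : ℕ) (A : (j : ℕ) → ContinuousMultilinearMap ℝ (fun _ : Fin j => X) F) {n : ℕ∞} :
    ContDiff ℝ n (TP m A) := by
  unfold TP
  refine ContDiff.sum fun j _ => ?_
  refine ContDiff.const_smul _ ?_
  exact (A j).contDiff.comp (contDiff_pi.2 fun _ => contDiff_id)

theorem TP_zero {m : ℕ} (hm : 1 ≤ m) (A : (j : ℕ) → ContinuousMultilinearMap ℝ (fun _ : Fin j => X) F) :
    TP m A 0 = A 0 0 := by
  obtain ⟨k, rfl⟩ := Nat.exists_eq_add_of_le' hm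
  unfold TP
  rw [Finset.sum_range_succ']
  rw [Finset.sum_eq_zero]
  · simp only [Nat.factorial_zero, Nat.cast_one, div_one, one_smul, zero_add]
    congr 1
  · intro j _
    have : A (j + 1) (fun _ => (0 : X)) = 0 := (A (j + 1)).map_zero
    rw [this, smul_zero]

theorem TP_smul (m : ℕ) (A : (j : ℕ) → ContinuousMultilinearMap ℝ (fun _ : Fin j => X) F) (t : ℝ) (h : X) :
    TP m A (t • h) = ∑ j ∈ Finset.range m, ((1 / (j.factorial : ℝ)) * t ^ j) • A j (fun _ => h) := by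
  unfold TP
  refine Finset.sum_congr rfl fun j _ => ?_
  have h3 := (A j).map_smul_univ (fun _ => t) (fun _ => h)
  simp only [Finset.prod_const, Finset.card_univ, Fintype.card_fin] at h3
  rw [h3, smul_smul]

/-- composition of a Taylor expansion with a function of class `C^n` -/
theorem comp_taylor {n m : ℕ} (hm : 1 ≤ m) (hmn : m ≤ n) {Ψ : F → ℝ} (hΨ : ContDiff ℝ n Ψ)
    (A : (j : ℕ) → ContinuousMultilinearMap ℝ (fun _ : Fin j => X) F) :
    ∃ B : (j : ℕ) → ContinuousMultilinearMap ℝ (fun _ : Fin j => X) ℝ, (∀ u, B 0 u = Ψ (A 0 0)) ∧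
      ∀ (φ : ℝ → F) (h : X), (∃ C : ℝ, 0 ≤ C ∧ ∃ δ > 0, ∀ t : ℝ, |t| ≤ δ →
        ‖φ t - ∑ j ∈ Finset.range m, ((1 / (j.factorial : ℝ)) * t ^ j) • A j (fun _ => h)‖ ≤ C * |t| ^ m) →
      ∃ C : ℝ, ∃ δ > 0, ∀ t : ℝ, |t| ≤ δ →
        |Ψ (φ t) - ∑ j ∈ Finset.range m, (1 / (j.factorial : ℝ)) * B j (fun _ => t • h)| ≤ C * |t| ^ m := by
  set G : X → ℝ := fun u => Ψ (TP m A u) with hGdef
  have hG : ContDiff ℝ n G := hΨ.comp (TP_contDiff m A)
  refine ⟨fun j => iteratedFDeriv ℝ j G 0, fun u => ?_, fun φ h hφ => ?_⟩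
  · rw [iteratedFDeriv_zero_apply]
    simp only [hGdef]
    rw [TP_zero hm]
  · obtain ⟨C1, hC1, δ1, hδ1, h1⟩ := hφ
    obtain ⟨C2, hC2, δ2, hδ2, h2⟩ := taylor_contDiff hm hmn hG h
    obtain ⟨K, s, hs, hK⟩ := (hΨ.contDiffAt (x := TP m A 0)).of_le (m := 1) (by exact_mod_cast (le_trans hm hmn)) |>.exists_lipschitzOnWith
    -- eventually both points lie in `s`
    have hc1 : Tendsto (fun t : ℝ => TP m A (t • h)) (𝓝 0) (𝓝 (TP m A 0)) := by
      have hc : Continuous (fun t : ℝ => TP m A (t • h)) :=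
        ((TP_contDiff m A (n := 0)).continuous).comp (by fun_prop)
      have := hc.tendsto 0
      simpa using this
    have hsm : Tendsto (fun t : ℝ => φ t - TP m A (t • h)) (𝓝 0) (𝓝 0) := by
      refine squeeze_zero_norm' (a := fun t : ℝ => C1 * |t| ^ m) ?_ ?_
      · have : ∀ᶠ t : ℝ in 𝓝 0, |t| < δ1 := by
          have := (continuous_abs.tendsto (0:ℝ)).eventually_lt_const (by simpa using hδ1 : |(0:ℝ)| < δ1)
          exact this
        filter_upwards [this] with t ht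
        have h3 := h1 t ht.le
        rw [TP_smul]
        exact h3
      · have hc : Continuous (fun t : ℝ => C1 * |t| ^ m) := by fun_prop
        have := hc.tendsto 0
        simpa [show m ≠ 0 by omega] using this
    have hc2 : Tendsto φ (𝓝 0) (𝓝 (TP m A 0)) := by
      have := hsm.add hc1
      simpa using this
    have hev := (hc1.eventually hs).and (hc2.eventually hs)
    rw [Metric.eventually_nhds_iff] at hev
    obtain ⟨δ3, hδ3, h3⟩ := hev
    refine ⟨K * C1 + C2, min (min δ1 δ2) (δ3 / 2), lt_min (lt_min hδ1 hδ2) (by positivity), fun t ht => ?_⟩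
    have ht1 : |t| ≤ δ1 := le_trans ht (le_trans (min_le_left _ _) (min_le_left _ _))
    have ht2 : |t| ≤ δ2 := le_trans ht (le_trans (min_le_left _ _) (min_le_right _ _))
    have ht3 : |t| ≤ δ3 / 2 := le_trans ht (min_le_right _ _)
    obtain ⟨e1, e2⟩ := h3 (y := t) (by rw [Real.dist_eq, sub_zero]; linarith)
    have e3 := hK.dist_le_mul (φ t) e2 (TP m A (t • h)) e1
    rw [Real.dist_eq, dist_eq_norm] at e3
    have e4 := h1 t ht1
    rw [← TP_smul] at e4
    have e5 := h2 t ht2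
    have e6 : |Ψ (φ t) - G (t • h)| ≤ K * (C1 * |t| ^ m) :=
      le_trans e3 (mul_le_mul_of_nonneg_left e4 K.2)
    have e7 := abs_sub_le (Ψ (φ t)) (G (t • h)) (∑ j ∈ Finset.range m, (1 / (j.factorial : ℝ)) * iteratedFDeriv ℝ j G 0 (fun _ => t • h))
    calc _ ≤ _ := e7
      _ ≤ K * (C1 * |t| ^ m) + C2 * |t| ^ m := add_le_add e6 e5
      _ = (K * C1 + C2) * |t| ^ m := by ring

/-- bumps near every point -/
theorem bump_at {n : ℕ} (h : ∃ ψ : F → ℝ, ContDiff ℝ n ψ ∧ (∃ y, ψ y ≠ 0) ∧ Bornology.IsBounded (Function.support ψ))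
    (y₀ : F) {ε : ℝ} (hε : 0 < ε) : ∃ Ψ : F → ℝ, ContDiff ℝ n Ψ ∧ (∀ y, Ψ y ≤ 0) ∧ Ψ y₀ < 0 ∧
      ∀ y, ε ≤ ‖y - y₀‖ → Ψ y = 0 := by
  obtain ⟨ψ, hψ, ⟨y₁, hy₁⟩, hb⟩ := h
  obtain ⟨R, hR⟩ := hb.exists_norm_le
  have hR1 : ‖y₁‖ ≤ R := hR y₁ hy₁
  have hR0 : 0 ≤ R := le_trans (norm_nonneg _) hR1
  refine ⟨fun y => -(ψ (y₁ + ((2 * R + 1) / ε) • (y - y₀)) ^ 2), ?_, fun y => ?_, ?_, fun y hy => ?_⟩
  · have : ContDiff ℝ n (fun y : F => y₁ + ((2 * R + 1) / ε) • (y - y₀)) := by fun_prop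
    exact ((hψ.comp this).pow 2).neg
  · have := sq_nonneg (ψ (y₁ + ((2 * R + 1) / ε) • (y - y₀)))
    linarith
  · simp only [sub_self, smul_zero, add_zero]
    have : 0 < ψ y₁ ^ 2 := by positivity
    linarith
  · have h1 : ψ (y₁ + ((2 * R + 1) / ε) • (y - y₀)) = 0 := by
      by_contra hne
      have h2 := hR _ hne
      have h3 : ‖((2 * R + 1) / ε) • (y - y₀)‖ ≤ 2 * R := by
        have := norm_sub_le (y₁ + ((2 * R + 1) / ε) • (y - y₀)) y₁
        rw [add_sub_cancel_left] at this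
        linarith
      rw [norm_smul, Real.norm_eq_abs, abs_of_nonneg (by positivity), div_mul_eq_mul_div, div_le_iff₀ hε] at h3
      nlinarith
    simp only [h1]; norm_num

end Pool.Agent.Y278.BF
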