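import Pool.Agent.Y278.BF.P2
import Pool.Agent.H312Gat.A8
set_option linter.unusedVariables false
set_option linter.unusedSectionVars false
open Set Filter Topology
open scoped ENNReal

namespace Pool.Agent.Y278.BF

open H312Gat

variable {p : ℝ≥0∞} [Fact (1 ≤ p)] [hpt : Fact (p ≠ ⊤)]
variable {F : Type*} [NormedAddCommGroup F] [NormedSpace ℝ F]

/-- a trap of a nonpositive function is a point where it is negative -/
theorem trap_neg {g : LP p → ℝ} (hg : ∀ x, g x ≤ 0) {x : LP p} (h : Trap g x) : g x < 0 := by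
  by_contra hcon
  have h0 : g x = 0 := le_antisymm (hg x) (not_lt.1 hcon)
  obtain ⟨ε, hε, L, hLf, hL, δ, hδ, htrap⟩ := h
  obtain ⟨N, hN⟩ := htrap δ hδ
  obtain ⟨u, hu, hu1, huP⟩ := far_unit hLf hL N hε
  have hnc : nu (δ • u) = δ ^ p.toReal := by
    rw [nu_smul, nu_def, hu1, Real.one_rpow, mul_one, abs_of_pos hδ]
  have h1 := hN (δ • u) (Tl_smul _ hu) (by rw [norm_smul, hu1, mul_one, Real.norm_eq_abs, abs_of_pos hδ])
    (by rw [norm_smul, hu1, mul_one, Real.norm_eq_abs, abs_of_pos hδ]) (by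
      intro P hP
      rw [(hL P hP).hom δ hδ.le, abs_mul, abs_of_pos (by positivity : 0 < δ ^ p.toReal), hnc, mul_comm]
      have := huP P hP
      gcongr)
  rw [h0, hnc, zero_add] at h1
  have h2 := hg (x + δ • u)
  have h3 : 0 < ε * δ ^ p.toReal := by positivity
  linarith

/-- the domain principle on `ℓ_p` -/
theorem domain_LP (hp : ∀ k : ℕ, p.toReal ≠ 2 * k) {n : ℕ} (hn : p.toReal < n)
    {D : Set (LP p)} (hD : IsOpen D) (hDb : Bornology.IsBounded D) {f : LP p → F}
    (hf : ContinuousOn f (closure D))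
    (A : LP p → (j : ℕ) → ContinuousMultilinearMap ℝ (fun _ : Fin j => LP p) F)
    (hA0 : ∀ z ∈ D, ∀ u, A z 0 u = f z)
    (hA : ∀ z ∈ D, ∀ h : LP p, ∀ j < n,
      HasDerivAt (fun t : ℝ => A (z + t • h) j (fun _ => h)) (A z (j + 1) (fun _ => h)) 0)
    {Ψ : F → ℝ} (hΨ : ContDiff ℝ n Ψ) (hneg : ∀ y, Ψ y ≤ 0) (hfr : ∀ z ∈ frontier D, Ψ (f z) = 0)
    {x₀ : LP p} (hx₀ : x₀ ∈ D) (hlt : Ψ (f x₀) < 0) : False := by
  classical
  set g : LP p → ℝ := fun x => if x ∈ D then Ψ (f x) else 0 with hgdef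
  have hgD : ∀ x ∈ D, g x = Ψ (f x) := fun x hx => by simp only [hgdef]; rw [if_pos hx]
  have hgD' : ∀ x, x ∉ D → g x = 0 := fun x hx => by simp only [hgdef]; rw [if_neg hx]
  have hg0 : ∀ x, g x ≤ 0 := by
    intro x
    by_cases hx : x ∈ D
    · rw [hgD x hx]; exact hneg _
    · rw [hgD' x hx]
  have hcl : ContinuousOn g (closure D) := by
    have h1 : ContinuousOn (fun x => Ψ (f x)) (closure D) := hΨ.continuous.comp_continuousOn hf
    refine h1.congr fun x hx => ?_
    by_cases hxD : x ∈ D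
    · exact hgD x hxD
    · rw [hgD' x hxD]
      exact (hfr x ⟨hx, by rwa [hD.interior_eq]⟩).symm
  have hco : ContinuousOn g Dᶜ := continuousOn_const.congr fun x hx => hgD' x hx
  have hg : Continuous g := by
    rw [← continuousOn_univ]
    have h1 : closure D ∪ Dᶜ = univ := by
      rw [eq_univ_iff_forall]
      intro x
      by_cases hx : x ∈ D
      · exact Or.inl (subset_closure hx)
      · exact Or.inr hx
    rw [← h1]
    exact hcl.union_of_isClosed hco isClosed_closure hD.isClosed_compl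
  obtain ⟨R, hR⟩ := hDb.exists_norm_le
  obtain ⟨x, hx⟩ := trap_of_neg hg (x₀ := x₀) (by rw [hgD x₀ hx₀]; exact hlt) (R := R) (fun x hx => hR x (by
    by_contra hxD
    exact hx (hgD' x hxD)))
  have hxneg := trap_neg hg0 hx
  have hxD : x ∈ D := by
    by_contra hxD
    rw [hgD' x hxD] at hxneg
    exact lt_irrefl _ hxneg
  have hpr := pr_pos (p := p)
  set d := ⌊p.toReal⌋₊ with hd
  have hd1 : (d:ℝ) ≤ p.toReal := Nat.floor_le hpr.le
  have hd2 : p.toReal < d + 1 := Nat.lt_floor_add_one _
  have hdn : d < n := by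
    have : (d:ℝ) < n := lt_of_le_of_lt hd1 hn
    exact_mod_cast this
  have hB := fun z : LP p => comp_taylor (m := d + 1) (by omega) (by omega) hΨ (A z)
  choose B hB0 hB using hB
  refine no_trap_taylor hg hd1 hd2 ?_ hD B ?_ ?_ x hxD hx
  · intro h
    rw [← Nat.not_even_iff_odd]
    rintro ⟨k, hk⟩
    apply hp k
    rw [← h, hk]; push_cast; ring
  · intro z hz u
    rw [dg_def, hB0, hA0 z hz, hgD z hz]
  · intro z hz h
    obtain ⟨r, hr, hball⟩ := Metric.isOpen_iff.1 hD z hz
    have hin : ∀ t : ℝ, |t| < r / (‖h‖ + 1) → z + t • h ∈ D := by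
      intro t ht
      apply hball
      rw [Metric.mem_ball, dist_eq_norm, add_sub_cancel_left, norm_smul, Real.norm_eq_abs]
      rw [lt_div_iff₀ (by positivity)] at ht
      have := abs_nonneg t
      nlinarith [norm_nonneg h]
    obtain ⟨C, hC0, δ', hδ', hC⟩ := taylor_lineF (d + 1) (by omega) (fun j t => A (z + t • h) j (fun _ => h))
      (r / (‖h‖ + 1)) (by positivity) (by
        intro j hj t ht
        have h1 := hA (z + t • h) (hin t ht) h j (by omega)
        have h2 : (fun s : ℝ => A (z + s • h) j (fun _ => h)) =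
            fun s => (fun s => A (z + t • h + s • h) j (fun _ => h)) (s - t) := by
          ext s
          simp only
          rw [add_assoc, ← add_smul, add_sub_cancel]
        rw [h2]
        rw [← sub_self t] at h1
        exact h1.comp_sub_const t t)
    obtain ⟨C', δ'', hδ'', hC'⟩ := hB z (fun t => f (z + t • h)) h ⟨C, hC0, min δ' (r / (‖h‖ + 1) / 2), lt_min hδ' (by positivity), by
      intro t ht
      have h1 := hC t (le_trans ht (min_le_left _ _))
      have h3 : |t| < r / (‖h‖ + 1) := by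
        have h4 := le_trans ht (min_le_right _ _)
        have h5 : 0 < r / (‖h‖ + 1) := by positivity
        linarith
      simp only [zero_smul, add_zero] at h1
      rw [hA0 _ (hin t h3)] at h1
      exact h1⟩
    refine ⟨C', min δ'' (r / (‖h‖ + 1) / 2), lt_min hδ'' (by positivity), fun t ht => ?_⟩
    have h1 := hC' t (le_trans ht (min_le_left _ _))
    have h3 : |t| < r / (‖h‖ + 1) := by
      have h4 := le_trans ht (min_le_right _ _)
      have h5 : 0 < r / (‖h‖ + 1) := by positivity
      linarith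
    rw [hgD _ (hin t h3)]
    exact h1

end Pool.Agent.Y278.BF
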