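import Pool.Agent.Y278.BF.P3
set_option linter.unusedVariables false
set_option linter.unusedSectionVars false
open Set Filter Topology
open scoped ENNReal

namespace Pool.Agent.Y278.BF

section defs
variable {X F : Type*} [NormedAddCommGroup X] [NormedSpace ℝ X] [NormedAddCommGroup F] [NormedSpace ℝ F]

/-- The iterated directional derivative `D_{h 0} D_{h 1} ⋯ D_{h (j-1)} f`. -/
noncomputable def iterD (f : X → F) : (j : ℕ) → (Fin j → X) → X → F
  | 0, _ => f
  | j + 1, h => fun y => lineDeriv ℝ (iterD f j (Fin.tail h)) y (h 0)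

/-- `f` is `k` times Gateaux differentiable on `U`. -/
def GateauxDiffOn (k : ℕ) (f : X → F) (U : Set X) : Prop :=
  ∀ j < k, ∀ x ∈ U,
    (∀ h : Fin (j + 1) → X, LineDifferentiableAt ℝ (iterD f j (Fin.tail h)) x (h 0)) ∧
    ∃ M : ContinuousMultilinearMap ℝ (fun _ : Fin (j + 1) => X) F, ∀ h, M h = iterD f (j + 1) h x

/-- `f` has directional Taylor expansions of order `m` at the points of `U`. -/
def DirTaylorOn (m : ℕ) (f : X → F) (U : Set X) : Prop :=
  ∀ x ∈ U, ∃ A : (j : ℕ) → ContinuousMultilinearMap ℝ (fun _ : Fin j => X) F, ∀ h : X,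
    ∃ C : ℝ, ∃ δ > 0, ∀ t : ℝ, |t| ≤ δ →
      ‖f (x + t • h) - ∑ j ∈ Finset.range m, ((1 / (j.factorial : ℝ)) * t ^ j) • A j (fun _ => h)‖ ≤ C * |t| ^ m

end defs

variable {X F : Type*} [NormedAddCommGroup X] [NormedSpace ℝ X] [NormedAddCommGroup F] [NormedSpace ℝ F]

theorem dirTaylorOn_of {f : X → F} {n : ℕ} (hn : 1 ≤ n) {U : Set X} (hU : IsOpen U) (h : GateauxDiffOn n f U) :
    DirTaylorOn n f U := by
  classical
  have hex : ∀ z : X, ∀ j : ℕ, ∃ M : ContinuousMultilinearMap ℝ (fun _ : Fin j => X) F,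
      z ∈ U → j ≤ n → ∀ v : X, M (fun _ => v) = iterD f j (fun _ => v) z := by
    intro z j
    rcases j with _ | j
    · exact ⟨ContinuousMultilinearMap.constOfIsEmpty ℝ _ (f z), fun _ _ v => rfl⟩
    · by_cases hz : z ∈ U ∧ j + 1 ≤ n
      · obtain ⟨M, hM⟩ := (h j (by omega) z hz.1).2
        exact ⟨M, fun _ _ v => hM _⟩
      · exact ⟨0, fun h1 h2 => absurd ⟨h1, h2⟩ hz⟩
  choose M hM using hex
  have hder : ∀ z ∈ U, ∀ v : X, ∀ j < n,
      HasDerivAt (fun t : ℝ => M (z + t • v) j (fun _ => v)) (M z (j + 1) (fun _ => v)) 0 := by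
    intro z hz v j hj
    have h1 := (h j hj z hz).1 (fun _ => v)
    have h2 : HasDerivAt (fun t : ℝ => iterD f j (fun _ => v) (z + t • v)) (iterD f (j + 1) (fun _ => v) z) 0 :=
      h1.hasLineDerivAt
    rw [hM z (j + 1) hz hj v]
    refine h2.congr_of_eventuallyEq ?_
    have h3 : ∀ᶠ t : ℝ in 𝓝 0, z + t • v ∈ U := by
      have hc : Continuous (fun t : ℝ => z + t • v) := by fun_prop
      have : z + (0:ℝ) • v ∈ U := by simpa using hz
      exact hc.continuousAt.eventually (hU.mem_nhds this)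
    filter_upwards [h3] with t ht
    rw [hM _ j ht hj.le v]
  intro z hz
  refine ⟨M z, fun v => ?_⟩
  obtain ⟨r, hr, hball⟩ := Metric.isOpen_iff.1 hU z hz
  have hin : ∀ t : ℝ, |t| < r / (‖v‖ + 1) → z + t • v ∈ U := by
    intro t ht
    apply hball
    rw [Metric.mem_ball, dist_eq_norm, add_sub_cancel_left, norm_smul, Real.norm_eq_abs]
    rw [lt_div_iff₀ (by positivity)] at ht
    have := abs_nonneg t
    nlinarith [norm_nonneg v]
  obtain ⟨C, hC0, δ', hδ', hC⟩ := taylor_lineF n hn (fun j t => M (z + t • v) j (fun _ => v))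
    (r / (‖v‖ + 1)) (by positivity) (by
      intro j hj t ht
      have h1 := hder (z + t • v) (hin t ht) v j hj
      have h2 : (fun s : ℝ => M (z + s • v) j (fun _ => v)) =
          fun s => (fun s => M (z + t • v + s • v) j (fun _ => v)) (s - t) := by
        ext s
        simp only
        rw [add_assoc, ← add_smul, add_sub_cancel]
      rw [h2]
      rw [← sub_self t] at h1
      exact h1.comp_sub_const t t)
  refine ⟨C, min δ' (r / (‖v‖ + 1) / 2), lt_min hδ' (by positivity), fun t ht => ?_⟩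
  have h1 := hC t (le_trans ht (min_le_left _ _))
  have h3 : |t| < r / (‖v‖ + 1) := by
    have h4 := le_trans ht (min_le_right _ _)
    have h5 : 0 < r / (‖v‖ + 1) := by positivity
    linarith
  simp only [zero_smul, add_zero] at h1
  rw [hM _ 0 (hin t h3) (Nat.zero_le _)] at h1
  exact h1

theorem dirTaylor_step {f : X → F} {m : ℕ} {U : Set X} (h : DirTaylorOn (m + 1) f U) : DirTaylorOn m f U := by
  intro x hx
  obtain ⟨A, hA⟩ := h x hx
  refine ⟨A, fun v => ?_⟩
  obtain ⟨C, δ, hδ, hC⟩ := hA v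
  refine ⟨|C| + ‖A m (fun _ => v)‖, min δ 1, lt_min hδ one_pos, fun t ht => ?_⟩
  have h1 := hC t (le_trans ht (min_le_left _ _))
  have ht1 : |t| ≤ 1 := le_trans ht (min_le_right _ _)
  rw [Finset.sum_range_succ, ← sub_sub] at h1
  set w := f (x + t • v) - ∑ j ∈ Finset.range m, ((1 / (j.factorial : ℝ)) * t ^ j) • A j (fun _ => v) with hw
  have h2 : ‖w‖ ≤ ‖w - ((1 / (m.factorial : ℝ)) * t ^ m) • A m (fun _ => v)‖ + ‖((1 / (m.factorial : ℝ)) * t ^ m) • A m (fun _ => v)‖ := by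
    have := norm_add_le (w - ((1 / (m.factorial : ℝ)) * t ^ m) • A m (fun _ => v)) (((1 / (m.factorial : ℝ)) * t ^ m) • A m (fun _ => v))
    rwa [sub_add_cancel] at this
  have h3 : ‖((1 / (m.factorial : ℝ)) * t ^ m) • A m (fun _ => v)‖ ≤ |t| ^ m * ‖A m (fun _ => v)‖ := by
    rw [norm_smul, norm_mul, Real.norm_eq_abs, Real.norm_eq_abs, abs_pow]
    have h4 : |1 / (m.factorial : ℝ)| ≤ 1 := by
      rw [abs_of_nonneg (by positivity), div_le_one (by positivity)]
      exact_mod_cast m.factorial_pos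
    have h5 : 0 ≤ |t| ^ m := by positivity
    have h6 := norm_nonneg (A m (fun _ => v))
    calc |1 / (m.factorial : ℝ)| * |t| ^ m * ‖A m (fun _ => v)‖ ≤ 1 * |t| ^ m * ‖A m (fun _ => v)‖ := by gcongr
      _ = _ := by ring
  have h7 : C * |t| ^ (m + 1) ≤ |C| * |t| ^ m := by
    have h8 : |t| ^ (m + 1) ≤ |t| ^ m := pow_le_pow_of_le_one (abs_nonneg _) ht1 (Nat.le_succ _)
    have h9 : 0 ≤ |t| ^ (m + 1) := by positivity
    calc C * |t| ^ (m + 1) ≤ |C| * |t| ^ (m + 1) := by gcongr; exact le_abs_self _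
      _ ≤ |C| * |t| ^ m := by gcongr
  calc ‖w‖ ≤ _ := h2
    _ ≤ |C| * |t| ^ m + |t| ^ m * ‖A m (fun _ => v)‖ := add_le_add (le_trans h1 h7) h3
    _ = _ := by ring

theorem dirTaylor_mono {f : X → F} {m : ℕ} {U : Set X} (k : ℕ) (h : DirTaylorOn (m + k) f U) : DirTaylorOn m f U := by
  induction k with
  | zero => exact h
  | succ k ih => exact ih (dirTaylor_step h)

open H312Gat

variable {p : ℝ≥0∞} [Fact (1 ≤ p)] [hpt : Fact (p ≠ ⊤)]

/-- the domain principle on `ℓ_p` -/
theorem domain_LP' (hp : ∀ k : ℕ, p.toReal ≠ 2 * k) {n : ℕ} (hn : p.toReal < n)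
    {D : Set (LP p)} (hD : IsOpen D) (hDb : Bornology.IsBounded D) {f : LP p → F}
    (hf : ContinuousOn f (closure D)) (hT : DirTaylorOn n f D)
    {Ψ : F → ℝ} (hΨ : ContDiff ℝ n Ψ) (hneg : ∀ y, Ψ y ≤ 0) (hfr : ∀ z ∈ frontier D, Ψ (f z) = 0)
    {x₀ : LP p} (hx₀ : x₀ ∈ D) (hlt : Ψ (f x₀) < 0) : False := by
  classical
  set g : LP p → ℝ := fun x => if x ∈ D then Ψ (f x) else 0 with hgdef
  have hgD : ∀ x ∈ D, g x = Ψ (f x) := fun x hx => by simp only [hgdef]; rw [if_pos hx]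
  have hgD' : ∀ x, x ∉ D → g x = 0 := fun x hx => by simp only [hgdef]; rw [if_neg hx]
  have hg0 : ∀ x, g x ≤ 0 := by
    intro x
    by_cases hx : x ∈ D
    · rw [hgD x hx]; exact hneg _
    · rw [hgD' x hx]
  have hcl : ContinuousOn g (closure D) := by
    have h1 : ContinuousOn (fun x => Ψ (f x)) (closure D) := hΨ.continuous.comp_continuousOn hf
    refine h1.congr fun x hx => ?_
    by_cases hxD : x ∈ D
    · exact hgD x hxD
    · rw [hgD' x hxD]
      exact (hfr x ⟨hx, by rwa [hD.interior_eq]⟩).symm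
  have hco : ContinuousOn g Dᶜ := continuousOn_const.congr fun x hx => hgD' x hx
  have hg : Continuous g := by
    rw [← continuousOn_univ]
    have h1 : closure D ∪ Dᶜ = univ := by
      rw [eq_univ_iff_forall]
      intro x
      by_cases hx : x ∈ D
      · exact Or.inl (subset_closure hx)
      · exact Or.inr hx
    rw [← h1]
    exact hcl.union_of_isClosed hco isClosed_closure hD.isClosed_compl
  obtain ⟨R, hR⟩ := hDb.exists_norm_le
  obtain ⟨x, hx⟩ := trap_of_neg hg (x₀ := x₀) (by rw [hgD x₀ hx₀]; exact hlt) (R := R) (fun x hx => hR x (by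
    by_contra hxD
    exact hx (hgD' x hxD)))
  have hxneg := trap_neg hg0 hx
  have hxD : x ∈ D := by
    by_contra hxD
    rw [hgD' x hxD] at hxneg
    exact lt_irrefl _ hxneg
  have hpr := pr_pos (p := p)
  set d := ⌊p.toReal⌋₊ with hd
  have hd1 : (d:ℝ) ≤ p.toReal := Nat.floor_le hpr.le
  have hd2 : p.toReal < d + 1 := Nat.lt_floor_add_one _
  have hdn : d < n := by
    have : (d:ℝ) < n := lt_of_le_of_lt hd1 hn
    exact_mod_cast this
  have hT' : DirTaylorOn (d + 1) f D := by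
    obtain ⟨k, rfl⟩ := Nat.exists_eq_add_of_le (show d + 1 ≤ n by omega)
    exact dirTaylor_mono k hT
  have hA : ∀ z : LP p, ∃ A : (j : ℕ) → ContinuousMultilinearMap ℝ (fun _ : Fin j => LP p) F, z ∈ D → ∀ h : LP p,
      ∃ C : ℝ, ∃ δ > 0, ∀ t : ℝ, |t| ≤ δ →
      ‖f (z + t • h) - ∑ j ∈ Finset.range (d + 1), ((1 / (j.factorial : ℝ)) * t ^ j) • A j (fun _ => h)‖ ≤ C * |t| ^ (d + 1) := by
    intro z
    by_cases hz : z ∈ D
    · obtain ⟨A, hA⟩ := hT' z hz
      exact ⟨A, fun _ => hA⟩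
    · exact ⟨fun _ => 0, fun h => absurd h hz⟩
  choose A hA using hA
  have hA0 : ∀ z ∈ D, A z 0 0 = f z := by
    intro z hz
    obtain ⟨C, δ, hδ, h⟩ := hA z hz 0
    have h1 := h 0 (by rw [abs_zero]; exact hδ.le)
    rw [Finset.sum_range_succ'] at h1
    simp only [pow_succ, mul_zero, zero_smul, Finset.sum_const_zero, zero_add, Nat.factorial_zero, Nat.cast_one,
      div_one, pow_zero, mul_one, one_smul, add_zero, abs_zero] at h1
    have h2 := norm_le_zero_iff.1 h1
    rw [sub_eq_zero] at h2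
    rw [h2]
    congr 1
  have hB := fun z : LP p => comp_taylor (m := d + 1) (by omega) (by omega) hΨ (A z)
  choose B hB0 hB using hB
  refine no_trap_taylor hg hd1 hd2 ?_ hD B ?_ ?_ x hxD hx
  · intro h
    rw [← Nat.not_even_iff_odd]
    rintro ⟨k, hk⟩
    apply hp k
    rw [← h, hk]; push_cast; ring
  · intro z hz u
    rw [dg_def, hB0, hA0 z hz, hgD z hz]
  · intro z hz h
    obtain ⟨r, hr, hball⟩ := Metric.isOpen_iff.1 hD z hz
    have hin : ∀ t : ℝ, |t| < r / (‖h‖ + 1) → z + t • h ∈ D := by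
      intro t ht
      apply hball
      rw [Metric.mem_ball, dist_eq_norm, add_sub_cancel_left, norm_smul, Real.norm_eq_abs]
      rw [lt_div_iff₀ (by positivity)] at ht
      have := abs_nonneg t
      nlinarith [norm_nonneg h]
    obtain ⟨C, δ', hδ', hC⟩ := hA z hz h
    obtain ⟨C', δ'', hδ'', hC'⟩ := hB z (fun t => f (z + t • h)) h ⟨|C|, abs_nonneg _, δ', hδ', fun t ht =>
      le_trans (hC t ht) (by gcongr; exact le_abs_self _)⟩
    refine ⟨C', min δ'' (r / (‖h‖ + 1) / 2), lt_min hδ'' (by positivity), fun t ht => ?_⟩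
    have h1 := hC' t (le_trans ht (min_le_left _ _))
    have h3 : |t| < r / (‖h‖ + 1) := by
      have h4 := le_trans ht (min_le_right _ _)
      have h5 : 0 < r / (‖h‖ + 1) := by positivity
      linarith
    rw [hgD _ (hin t h3)]
    exact h1

end Pool.Agent.Y278.BF
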