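import Pool.Agent.Y278.BF.P4
set_option linter.unusedVariables false
set_option linter.unusedSectionVars false
open Set Filter Topology
open scoped ENNReal

namespace Pool.Agent.Y278.BF

section defs
variable {X : Type*} [NormedAddCommGroup X] [NormedSpace ℝ X]

/-- `N` is an equivalent norm on `X`. -/
structure IsEquivNorm (N : X → ℝ) : Prop where
  add_le : ∀ x y, N (x + y) ≤ N x + N y
  smul : ∀ (t : ℝ) (x : X), N (t • x) = |t| * N x
  equiv : ∃ c C : ℝ, 0 < c ∧ 0 < C ∧ ∀ x, c * ‖x‖ ≤ N x ∧ N x ≤ C * ‖x‖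

/-- `F` carries a nonzero function of class `C^n` (in the Frechet sense) with bounded support. -/
def HasBump (n : ℕ) (F : Type*) [NormedAddCommGroup F] [NormedSpace ℝ F] : Prop :=
  ∃ ψ : F → ℝ, ContDiff ℝ n ψ ∧ (∃ y, ψ y ≠ 0) ∧ Bornology.IsBounded (Function.support ψ)

/-- `f` is `n` times Gateaux differentiable on `U`, or it has at least directional Taylor expansions of
order `n` at the points of `U`. -/
def SmoothOn {X F : Type*} [NormedAddCommGroup X] [NormedSpace ℝ X] [NormedAddCommGroup F] [NormedSpace ℝ F]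
    (n : ℕ) (f : X → F) (U : Set X) : Prop :=
  GateauxDiffOn n f U ∨ DirTaylorOn n f U

/-- The boundary rule: a map from `X` to `F` that is continuous on the closure of a bounded open set
and `SmoothOn n` on the set takes on the closure only values in the closure of the image of the
boundary. -/
def BoundaryRule (n : ℕ) (X F : Type*) [NormedAddCommGroup X] [NormedSpace ℝ X]
    [NormedAddCommGroup F] [NormedSpace ℝ F] : Prop :=
  ∀ D : Set X, IsOpen D → Bornology.IsBounded D → ∀ f : X → F, ContinuousOn f (closure D) →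
    SmoothOn n f D → f '' closure D ⊆ closure (f '' frontier D)

/-- `X` contains an isomorphic copy of `ℓ_p`. -/
def ContainsEll (p : ℝ≥0∞) [Fact (1 ≤ p)] (X : Type*) [NormedAddCommGroup X] [NormedSpace ℝ X] : Prop :=
  ∃ T : lp (fun _ : ℕ => ℝ) p →L[ℝ] X, ∃ c : ℝ, 0 < c ∧ ∀ u, c * ‖u‖ ≤ ‖T u‖

end defs

theorem hasBump_of (n : ℕ) (F : Type*) [NormedAddCommGroup F] [NormedSpace ℝ F] [HasContDiffBump F] :
    HasBump n F := by
  let b : ContDiffBump (0 : F) := ⟨1, 2, one_pos, one_lt_two⟩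
  refine ⟨b, b.contDiff, ⟨0, ?_⟩, ?_⟩
  · rw [b.one_of_mem_closedBall (by simp [b])]
    exact one_ne_zero
  · rw [b.support_eq]
    exact Metric.isBounded_ball

variable {X F : Type*} [NormedAddCommGroup X] [NormedSpace ℝ X] [NormedAddCommGroup F] [NormedSpace ℝ F]
variable {Y : Type*} [NormedAddCommGroup Y] [NormedSpace ℝ Y]

theorem dirTaylor_comp {f : X → F} {m : ℕ} {U : Set X} (T : Y →L[ℝ] X) (x₀ : X)
    (h : DirTaylorOn m f U) : DirTaylorOn m (fun u => f (x₀ + T u)) {u | x₀ + T u ∈ U} := by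
  intro z hz
  obtain ⟨A, hA⟩ := h _ hz
  refine ⟨fun j => (A j).compContinuousLinearMap (fun _ => T), fun v => ?_⟩
  obtain ⟨C, δ, hδ, hC⟩ := hA (T v)
  refine ⟨C, δ, hδ, fun t ht => ?_⟩
  have h1 := hC t ht
  simp only [ContinuousMultilinearMap.compContinuousLinearMap_apply, map_add, map_smul]
  rw [← add_assoc]
  exact h1

open H312Gat in
theorem domain_gen {p : ℝ≥0∞} [Fact (1 ≤ p)] (hpt : p ≠ ⊤) (hp : ∀ k : ℕ, p.toReal ≠ 2 * k) {n : ℕ}
    (hn : p.toReal < n) (T : LP p →L[ℝ] X) {c : ℝ} (hc : 0 < c) (hT : ∀ u, c * ‖u‖ ≤ ‖T u‖)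
    (hF : HasBump n F) {D : Set X} (hD : IsOpen D) (hDb : Bornology.IsBounded D) {f : X → F}
    (hf : ContinuousOn f (closure D)) (hfT : DirTaylorOn n f D) :
    f '' closure D ⊆ closure (f '' frontier D) := by
  have : Fact (p ≠ ⊤) := ⟨hpt⟩
  rintro _ ⟨x₀, hx₀, rfl⟩
  by_cases hxD : x₀ ∈ D
  swap
  · exact subset_closure ⟨x₀, ⟨hx₀, by rwa [hD.interior_eq]⟩, rfl⟩
  by_contra hcon
  rw [Metric.mem_closure_iff] at hcon
  push Not at hcon
  obtain ⟨ε, hε, hfar⟩ := hcon
  obtain ⟨Ψ, hΨ, hneg, hΨ0, hΨz⟩ := bump_at hF (f x₀) hε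
  have hcont : Continuous (fun u : LP p => x₀ + T u) := by fun_prop
  have hcl : closure {u : LP p | x₀ + T u ∈ D} ⊆ {u | x₀ + T u ∈ closure D} := hcont.closure_preimage_subset D
  have hfr : frontier {u : LP p | x₀ + T u ∈ D} ⊆ {u | x₀ + T u ∈ frontier D} := hcont.frontier_preimage_subset D
  refine domain_LP' (p := p) hp hn (D := {u : LP p | x₀ + T u ∈ D}) (f := fun u => f (x₀ + T u))
    (hD.preimage hcont) ?_ ?_ (dirTaylor_comp T x₀ hfT) hΨ hneg ?_ (x₀ := 0) ?_ ?_
  · obtain ⟨R, hR⟩ := hDb.exists_norm_le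
    rw [isBounded_iff_forall_norm_le]
    refine ⟨(R + ‖x₀‖) / c, fun u hu => ?_⟩
    rw [le_div_iff₀ hc]
    have h1 := hR _ hu
    have h2 := norm_sub_le (x₀ + T u) x₀
    rw [add_sub_cancel_left] at h2
    have h3 := hT u
    linarith
  · exact hf.comp hcont.continuousOn hcl
  · intro z hz
    refine hΨz _ ?_
    have h1 := hfar _ ⟨_, hfr hz, rfl⟩
    rw [dist_comm, dist_eq_norm] at h1
    exact h1
  · show x₀ + T 0 ∈ D
    rwa [map_zero, add_zero]
  · show Ψ (f (x₀ + T 0)) < 0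
    rwa [map_zero, add_zero]

theorem equivNorm_cont {N : X → ℝ} (hN : IsEquivNorm N) : Continuous N := by
  obtain ⟨c, C, hc, hC, h⟩ := hN.equiv
  have hneg : ∀ x, N (-x) = N x := fun x => by
    have := hN.smul (-1) x
    rw [neg_one_smul, abs_neg, abs_one, one_mul] at this
    exact this
  rw [Metric.continuous_iff]
  intro x ε hε
  refine ⟨ε / C, by positivity, fun y hy => ?_⟩
  rw [dist_eq_norm, lt_div_iff₀ hC] at hy
  have h1 : N y ≤ N (y - x) + N x := by
    have := hN.add_le (y - x) x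
    rwa [sub_add_cancel] at this
  have h2 : N x ≤ N (y - x) + N y := by
    have := hN.add_le (x - y) y
    rwa [sub_add_cancel, ← neg_sub y x, hneg] at this
  have h3 := (h (y - x)).2
  rw [Real.dist_eq, abs_lt]
  constructor <;> nlinarith

open H312Gat in
theorem no_norm {p : ℝ≥0∞} [Fact (1 ≤ p)] (hpt : p ≠ ⊤) (hp : ∀ k : ℕ, p.toReal ≠ 2 * k) {n : ℕ}
    (hn : p.toReal < n) (T : LP p →L[ℝ] X) {c : ℝ} (hc : 0 < c) (hT : ∀ u, c * ‖u‖ ≤ ‖T u‖)
    {N : X → ℝ} (hN : IsEquivNorm N) (hNT : DirTaylorOn n N {0}ᶜ) : False := by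
  have hcN := equivNorm_cont hN
  obtain ⟨a, b, ha, hb, hab⟩ := hN.equiv
  set D : Set X := {x | 1 < N x ∧ N x < 2} with hDdef
  have hD : IsOpen D := (isOpen_lt continuous_const hcN).inter (isOpen_lt hcN continuous_const)
  have hDb : Bornology.IsBounded D := by
    rw [isBounded_iff_forall_norm_le]
    refine ⟨2 / a, fun x hx => ?_⟩
    rw [le_div_iff₀ ha]
    have := (hab x).1
    linarith [hx.2]
  have hN0 : N 0 = 0 := by
    have := hN.smul 0 0
    simpa using this
  have hD0 : D ⊆ {0}ᶜ := by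
    intro x hx h0
    rw [mem_singleton_iff] at h0
    rw [h0] at hx
    have := hx.1
    rw [hN0] at this
    linarith
  have hmain := domain_gen hpt hp hn T hc hT (hasBump_of n ℝ) hD hDb (f := N) hcN.continuousOn
    (fun x hx => hNT x (hD0 hx))
  have : Fact (p ≠ ⊤) := ⟨hpt⟩
  -- a point with `N x = 3/2`
  set y : X := T (e 0) with hy
  have hypos : 0 < N y := by
    have h1 := hT (e 0)
    rw [e_norm, mul_one] at h1
    have h2 := (hab y).1
    have : 0 < a * ‖y‖ := mul_pos ha (lt_of_lt_of_le hc h1)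
    linarith
  set x : X := ((3/2) / N y) • y with hx
  have hNx : N x = 3 / 2 := by
    rw [hx, hN.smul, abs_of_pos (by positivity)]
    field_simp
  have hxD : x ∈ D := ⟨by rw [hNx]; norm_num, by rw [hNx]; norm_num⟩
  have h1 := hmain ⟨x, subset_closure hxD, rfl⟩
  have hfr : N '' frontier D ⊆ {1, 2} := by
    rintro _ ⟨z, hz, rfl⟩
    rw [frontier, hD.interior_eq] at hz
    have hsub : D ⊆ {x : X | 1 ≤ N x ∧ N x ≤ 2} := fun x hx => ⟨hx.1.le, hx.2.le⟩
    have hclo : IsClosed {x : X | 1 ≤ N x ∧ N x ≤ 2} :=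
      (isClosed_le continuous_const hcN).inter (isClosed_le hcN continuous_const)
    have h2 : z ∈ {x : X | 1 ≤ N x ∧ N x ≤ 2} := closure_minimal hsub hclo hz.1
    by_contra hne
    simp only [mem_insert_iff, mem_singleton_iff, not_or] at hne
    exact hz.2 ⟨lt_of_le_of_ne h2.1 (Ne.symm hne.1), lt_of_le_of_ne h2.2 hne.2⟩
  have h3 := closure_minimal hfr (Set.toFinite _).isClosed h1
  rw [hNx] at h3
  simp only [mem_insert_iff, mem_singleton_iff] at h3
  rcases h3 with h3 | h3 <;> norm_num at h3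

open H312Gat in
theorem no_bump {p : ℝ≥0∞} [Fact (1 ≤ p)] (hpt : p ≠ ⊤) (hp : ∀ k : ℕ, p.toReal ≠ 2 * k) {n : ℕ}
    (hn : p.toReal < n) (T : LP p →L[ℝ] X) {c : ℝ} (hc : 0 < c) (hT : ∀ u, c * ‖u‖ ≤ ‖T u‖)
    {b : X → ℝ} (hb : Continuous b) (hbs : Bornology.IsBounded (Function.support b))
    (hbT : DirTaylorOn n b (Function.support b)) : b = 0 := by
  have hD : IsOpen (Function.support b) := hb.isOpen_support
  have hmain := domain_gen hpt hp hn T hc hT (hasBump_of n ℝ) hD hbs (f := b) hb.continuousOn hbT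
  ext x
  by_contra hx
  have hx' : x ∈ Function.support b := hx
  have h1 : b x ∈ closure (b '' frontier (Function.support b)) := hmain ⟨x, subset_closure hx', rfl⟩
  have hfr : b '' frontier (Function.support b) ⊆ {0} := by
    rintro _ ⟨z, hz, rfl⟩
    rw [frontier, hD.interior_eq] at hz
    have := hz.2
    rw [Function.mem_support, not_not] at this
    exact this
  exact hx (closure_minimal hfr isClosed_singleton h1)

open H312Gat in
theorem no_approx {p : ℝ≥0∞} [Fact (1 ≤ p)] (hpt : p ≠ ⊤) (hp : ∀ k : ℕ, p.toReal ≠ 2 * k) {n : ℕ}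
    (hn : p.toReal < n) (T : LP p →L[ℝ] X) {c : ℝ} (hc : 0 < c) (hT : ∀ u, c * ‖u‖ ≤ ‖T u‖)
    {f : X → ℝ} {R δ : ℝ} (hR : 0 < R) (hf : ContinuousOn f (Metric.closedBall 0 R))
    (hfT : DirTaylorOn n f (Metric.ball 0 R)) (hδ : ∀ x ∈ Metric.closedBall (0:X) R, |f x - ‖x‖| ≤ δ) : R / 2 ≤ δ := by
  have hmain := domain_gen hpt hp hn T hc hT (hasBump_of n ℝ) (D := Metric.ball 0 R) Metric.isOpen_ball
    Metric.isBounded_ball (hf.mono Metric.closure_ball_subset_closedBall) hfT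
  have h1 := hmain ⟨0, subset_closure (Metric.mem_ball_self hR), rfl⟩
  have hfr : f '' frontier (Metric.ball 0 R) ⊆ Ici (R - δ) := by
    rintro _ ⟨z, hz, rfl⟩
    have h2 := Metric.frontier_ball_subset_sphere hz
    rw [mem_sphere_zero_iff_norm] at h2
    have h3 := hδ z (by rw [mem_closedBall_zero_iff]; exact h2.le)
    rw [h2, abs_le] at h3
    show R - δ ≤ f z
    linarith [h3.1]
  have h4 : R - δ ≤ f 0 := closure_minimal hfr isClosed_Ici h1
  have h5 := hδ 0 (Metric.mem_closedBall_self hR.le)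
  rw [norm_zero, sub_zero, abs_le] at h5
  linarith [h5.2]

end Pool.Agent.Y278.BF
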